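import Pool.Agent.W278.EM.Stms
import Pool.Agent.Helper873.Mean
import Pool.Agent.Helper873.EvalB

/-! EM-MV: mean values (SMean) and rotations. -/

set_option autoImplicit false
open MeasureTheory Finset Filter
open scoped ComplexConjugate Topology

namespace Pool.Agent.W465.EM

open Pool.Agent.Helper873.OneVar Pool.Agent.Helper873.Product Pool.Agent.Helper873.Monomial
  Pool.Agent.Helper873.Alg Pool.Agent.Helper873.NT Pool.Agent.Helper873.Mean
  Pool.Agent.Helper873.EvalB Pool.Agent.W278.EM

theorem smean : SMean := by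
  intro p hp c
  have hzc : Continuous fun z : ℕ → UnitAddCircle => (fun j => zet (z j) : ℕ → ℂ) :=
    continuous_pi fun j => continuous_zet.comp (continuous_apply j)
  have hcont : Continuous fun z : ℕ → UnitAddCircle => ‖poly c (fun k => zet (z k))‖ ^ p :=
    (((continuous_poly c).comp hzc).norm).rpow_const fun _ => Or.inr hp.le
  let f : C(ℕ → UnitAddCircle, ℂ) := ⟨fun z => ((‖poly c (fun k => zet (z k))‖ ^ p : ℝ) : ℂ),
    Complex.continuous_ofReal.comp hcont⟩
  have h1 := kw f
  unfold EqM at h1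
  have h2 : ∫ z, f z ∂tor = ((∫ z, ‖poly c (fun k => zet (z k))‖ ^ p ∂tor : ℝ) : ℂ) :=
    integral_ofReal
  rw [h2] at h1
  have h3 := (Complex.continuous_re.tendsto _).comp h1
  rw [Complex.ofReal_re] at h3
  refine h3.congr fun T => ?_
  simp only [Function.comp]
  unfold mT
  have h4 : ∀ t : ℝ, f (zt t) = ((‖poly c (vs (t * Complex.I))‖ ^ p : ℝ) : ℂ) := by
    intro t
    have h5 : (fun j => zet (zt t j)) = vs (t * Complex.I) := funext fun k => zet_zt t k
    change ((‖poly c (fun k => zet (zt t k))‖ ^ p : ℝ) : ℂ) = _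
    rw [h5]
  simp_rw [h4]
  rw [intervalIntegral.integral_ofReal, ← Complex.ofReal_mul, Complex.ofReal_re]

theorem mon_mul_fun (n : ℕ) (w u : ℕ → ℂ) :
    mon n (fun k => w k * u k) = mon n w * mon n u := by
  unfold mon
  rw [← Finset.prod_mul_distrib]
  exact Finset.prod_congr rfl fun k _ => mul_pow _ _ _

/-- rotation of the argument does not change the `p`-norm -/
theorem integral_rotate_p (p : ℝ) (c : ℕ →₀ ℂ) (t : ℝ) :
    ∫ z, ‖poly c (fun k => zet (z k) * vs (t * Complex.I) k)‖ ^ p ∂tor =
      ∫ z, ‖poly c (fun k => zet (z k))‖ ^ p ∂tor := by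
  have hzc : Continuous fun z : ℕ → UnitAddCircle => (fun j => zet (z j) : ℕ → ℂ) :=
    continuous_pi fun j => continuous_zet.comp (continuous_apply j)
  have h1 := integral_map (μ := tor) (φ := fun z : ℕ → UnitAddCircle => z + zt t)
    (rotate (zt t)).measurable.aemeasurable (f := fun z => ‖poly c (fun k => zet (z k))‖ ^ p)
    ((((continuous_poly c).comp hzc).norm.measurable.pow_const p).aestronglyMeasurable)
  rw [(rotate (zt t)).map_eq] at h1
  rw [h1]
  refine integral_congr_ae (Filter.Eventually.of_forall fun z => ?_)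
  simp only [Pi.add_apply, zet_add, zet_zt]

theorem rot (p : ℝ) (c : ℕ →₀ ℂ) (τ : ℝ) : ∃ c' : ℕ →₀ ℂ,
    (∀ t : ℝ, poly c' (vs (pt 0 0 t)) = poly c (vs (pt 0 0 (t + τ)))) ∧
    ∫ z, ‖poly c' (zz z)‖ ^ p ∂tor = ∫ z, ‖poly c (zz z)‖ ^ p ∂tor := by
  classical
  let c' : ℕ →₀ ℂ := Finsupp.onFinset c.support
    (fun n => c n * mon (n + 1) (vs (τ * Complex.I))) (by
      intro n hn
      rw [Finsupp.mem_support_iff]
      intro h
      apply hn
      rw [h, zero_mul])
  have key : ∀ w : ℕ → ℂ, poly c' w = poly c (fun k => w k * vs (τ * Complex.I) k) := by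
    intro w
    unfold poly
    rw [Finsupp.sum_of_support_subset (s := c.support) c' (Finsupp.support_onFinset_subset) _
      (fun i _ => by simp)]
    unfold Finsupp.sum
    refine Finset.sum_congr rfl fun n _ => ?_
    show c' n * mon (n + 1) w = c n * mon (n + 1) (fun k => w k * vs (τ * Complex.I) k)
    rw [mon_mul_fun]
    simp only [c', Finsupp.onFinset_apply]
    ring
  refine ⟨c', fun t => ?_, ?_⟩
  · rw [key]
    congr 1
    funext k
    have h2 := Pool.Agent.Helper873.Embed.two_le_p k
    have hp0 : (0 : ℝ) < (Nat.nth Nat.Prime k : ℝ) := by linarith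
    have hpc : (Nat.nth Nat.Prime k : ℂ) ≠ 0 := by
      have : (Nat.nth Nat.Prime k : ℝ) ≠ 0 := hp0.ne'
      exact_mod_cast this
    unfold vs
    rw [← Complex.cpow_add _ _ hpc]
    congr 1
    unfold pt
    push_cast
    ring
  · have h1 : ∀ z : TT, poly c' (zz z) = poly c (fun k => zet (z k) * vs (τ * Complex.I) k) :=
      fun z => key _
    simp_rw [h1]
    exact integral_rotate_p p c τ

end Pool.Agent.W465.EM
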